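import Mathlib

/-!
# Normal subgroups of type (p, p) in noncyclic p-groups, p odd
-/

namespace H23.FT

open Subgroup

universe u

/-- A nontrivial normal subgroup of a finite p-group contains a central element of order `p`. -/
theorem exists_central {P : Type*} [Group P] [Finite P] {p : ℕ} [hp : Fact p.Prime]
    (hP : IsPGroup p P) (K : Subgroup P) [K.Normal] (hK : K ≠ ⊥) :
    ∃ z ∈ K, orderOf z = p ∧ z ∈ center P := by
  have hPc : IsPGroup p (ConjAct P) := hP
  have hKp : IsPGroup p K := hP.to_subgroup K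
  have hdvd : p ∣ Nat.card K := by
    rcases hKp.card_eq_or_dvd with h | h
    · exact absurd (Subgroup.card_eq_one.mp h) hK
    · exact h
  have h1 : (1 : K) ∈ MulAction.fixedPoints (ConjAct P) K := by
    intro g
    simp
  obtain ⟨b, hb, hb1⟩ := hPc.exists_fixed_point_of_prime_dvd_card_of_fixed_point K hdvd h1
  have hbc : (b : P) ∈ center P := by
    rw [mem_center_iff]
    intro g
    have := hb (ConjAct.toConjAct g)
    have h2 := congrArg (Subtype.val) this
    rw [ConjAct.Subgroup.val_conj_smul, ConjAct.smul_def] at h2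
    simp only [ConjAct.ofConjAct_toConjAct] at h2
    exact (mul_inv_eq_iff_eq_mul.mp h2)
  have hbne : (b : P) ≠ 1 := by
    intro h
    exact hb1 (Subtype.ext h.symm)
  obtain ⟨k, hk⟩ := (IsPGroup.iff_orderOf.mp hP) (b : P)
  have hk0 : k ≠ 0 := by
    rintro rfl
    rw [pow_zero, orderOf_eq_one_iff] at hk
    exact hbne hk
  obtain ⟨m, rfl⟩ := Nat.exists_eq_succ_of_ne_zero hk0
  refine ⟨(b : P) ^ (p ^ m), K.pow_mem b.2 _, ?_, (center P).pow_mem hbc _⟩
  rw [orderOf_pow' _ (pow_ne_zero _ hp.out.ne_zero), hk, pow_succ,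
    Nat.gcd_eq_right (Dvd.intro _ rfl), Nat.mul_div_cancel_left _ (pow_pos hp.out.pos _)]

theorem zpowers_normal_of_central {P : Type*} [Group P] {z : P} (hz : z ∈ center P) :
    (zpowers z).Normal := by
  refine ⟨fun a ha g => ?_⟩
  have : a ∈ center P := (zpowers_le.mpr hz) ha
  rw [mem_center_iff] at this
  rw [this g, mul_inv_cancel_right]
  exact ha

/-- A normal subgroup of order at least `p ^ 2` of a finite p-group contains a normal subgroup
of order `p ^ 2`. -/
theorem exists_normal_sq {P : Type*} [Group P] [Finite P] {p : ℕ} [hp : Fact p.Prime]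
    (hP : IsPGroup p P) (K : Subgroup P) [K.Normal] (hK : p < Nat.card K) :
    ∃ A : Subgroup P, A ≤ K ∧ A.Normal ∧ Nat.card A = p ^ 2 := by
  have hKb : K ≠ ⊥ := by
    rintro rfl
    rw [Subgroup.card_bot] at hK
    exact absurd hK (not_lt.mpr hp.out.one_le)
  obtain ⟨z, hzK, hzo, hzc⟩ := exists_central hP K hKb
  have hN : (zpowers z).Normal := zpowers_normal_of_central hzc
  have hNcard : Nat.card (zpowers z) = p := by rw [Nat.card_zpowers, hzo]
  set N := zpowers z with hNdef
  have hNK : N ≤ K := zpowers_le.mpr hzK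
  let π := QuotientGroup.mk' N
  have hπs : Function.Surjective π := QuotientGroup.mk'_surjective N
  have hQ : IsPGroup p (P ⧸ N) := hP.to_quotient N
  have hKN : (K.map π).Normal := Subgroup.Normal.map inferInstance π hπs
  have hKπ : K.map π ≠ ⊥ := by
    intro h
    rw [Subgroup.map_eq_bot_iff, QuotientGroup.ker_mk'] at h
    have := Subgroup.card_le_of_le h
    omega
  obtain ⟨w, hwK, hwo, hwc⟩ := exists_central hQ (K.map π) hKπ
  have hBn : (zpowers w).Normal := zpowers_normal_of_central hwc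
  have hBcard : Nat.card (zpowers w) = p := by rw [Nat.card_zpowers, hwo]
  refine ⟨(zpowers w).comap π, ?_, hBn.comap π, ?_⟩
  · have h1 : (zpowers w).comap π ≤ (K.map π).comap π :=
      Subgroup.comap_mono (zpowers_le.mpr hwK)
    refine h1.trans ?_
    rw [Subgroup.comap_map_eq, QuotientGroup.ker_mk']
    exact sup_le le_rfl hNK
  · have h1 := Subgroup.card_mul_index ((zpowers w).comap π)
    rw [Subgroup.index_comap_of_surjective _ hπs] at h1
    have h2 := Subgroup.card_mul_index (zpowers w)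
    have h3 := Subgroup.card_eq_card_quotient_mul_card_subgroup N
    rw [hNcard] at h3
    rw [hBcard] at h2
    have hpos : 0 < (zpowers w).index := Nat.pos_of_ne_zero Subgroup.index_ne_zero_of_finite
    have h4 : Nat.card ((zpowers w).comap π) * (zpowers w).index
        = (p ^ 2) * (zpowers w).index := by
      rw [h1, h3, ← h2]; ring
    exact Nat.eq_of_mul_eq_mul_right hpos h4

theorem mul_pow_class_two {P : Type*} [Group P] (x y c : P) (h : y * x = c * (x * y))
    (hc : ∀ g, g * c = c * g) (n : ℕ) : (x * y) ^ n = c ^ (n.choose 2) * (x ^ n * y ^ n) := by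
  have hcn : ∀ (n : ℕ) (g : P), g * c ^ n = c ^ n * g := fun n g =>
    (Commute.pow_right (show Commute g c from hc g) n).eq
  have h2 : ∀ n : ℕ, y ^ n * x = c ^ n * (x * y ^ n) := by
    intro n
    induction n with
    | zero => simp
    | succ n ih =>
      calc y ^ (n + 1) * x = y ^ n * (y * x) := by rw [pow_succ]; group
        _ = y ^ n * (c * (x * y)) := by rw [h]
        _ = (y ^ n * c) * (x * y) := by group
        _ = (c * y ^ n) * (x * y) := by rw [hc]
        _ = c * ((y ^ n * x) * y) := by group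
        _ = c * ((c ^ n * (x * y ^ n)) * y) := by rw [ih]
        _ = c ^ (n + 1) * (x * y ^ (n + 1)) := by rw [pow_succ', pow_succ]; group
  induction n with
  | zero => simp
  | succ n ih =>
    have hch : (n + 1).choose 2 = n.choose 2 + n := by
      rw [Nat.choose_succ_succ' n 1, Nat.choose_one_right, add_comm]
    calc (x * y) ^ (n + 1) = (x * y) ^ n * (x * y) := pow_succ _ _
      _ = (c ^ (n.choose 2) * (x ^ n * y ^ n)) * (x * y) := by rw [ih]
      _ = c ^ (n.choose 2) * (x ^ n * (y ^ n * x) * y) := by group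
      _ = c ^ (n.choose 2) * (x ^ n * (c ^ n * (x * y ^ n)) * y) := by rw [h2]
      _ = c ^ (n.choose 2) * ((x ^ n * c ^ n) * (x * y ^ n * y)) := by group
      _ = c ^ (n.choose 2) * ((c ^ n * x ^ n) * (x * y ^ n * y)) := by rw [hcn]
      _ = (c ^ (n.choose 2) * c ^ n) * ((x ^ n * x) * (y ^ n * y)) := by group
      _ = c ^ ((n + 1).choose 2) * (x ^ (n + 1) * y ^ (n + 1)) := by
        rw [← pow_add, ← hch, ← pow_succ, ← pow_succ]

/-- The step: `N` central of order `p`, `A` normal with `A / N` elementary abelian of order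
`p ^ 2` (given by its properties); then `A` contains a normal subgroup of order `p ^ 2` and
exponent `p`. -/
theorem step {P : Type*} [Group P] [Finite P] {p : ℕ} [hp : Fact p.Prime] (hp2 : p ≠ 2)
    (N A : Subgroup P) (hNc : N ≤ center P) (hNp : Nat.card N = p)
    [hA : A.Normal] (hAc : Nat.card A = p ^ 3) (hexp : ∀ a ∈ A, a ^ p ∈ N)
    (hcomm : ∀ a ∈ A, ∀ b ∈ A, a * b * a⁻¹ * b⁻¹ ∈ N) :
    ∃ K : Subgroup P, K.Normal ∧ p < Nat.card K ∧ ∀ a ∈ K, a ^ p = 1 := by
  have hN1 : ∀ c ∈ N, c ^ p = 1 := by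
    intro c hc
    have := orderOf_dvd_natCard (⟨c, hc⟩ : N)
    rw [hNp] at this
    have h := orderOf_dvd_iff_pow_eq_one.mp this
    exact congrArg Subtype.val h
  have hmul : ∀ a ∈ A, ∀ b ∈ A, (a * b) ^ p = a ^ p * b ^ p := by
    intro a ha b hb
    have hc := hcomm b hb a ha
    set c := b * a * b⁻¹ * a⁻¹ with hcdef
    have h1 : b * a = c * (a * b) := by rw [hcdef]; group
    have h2 : ∀ g, g * c = c * g := fun g => (mem_center_iff.mp (hNc hc)) g
    rw [mul_pow_class_two a b c h1 h2 p]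
    have h3 : p ∣ p.choose 2 := by
      have hlt : 2 < p := lt_of_le_of_ne hp.out.two_le (Ne.symm hp2)
      exact hp.out.dvd_choose_self (by norm_num) hlt
    obtain ⟨m, hm⟩ := h3
    rw [hm, pow_mul, hN1 c hc, one_pow, one_mul]
  let f : A →* P :=
    { toFun := fun a => (a : P) ^ p
      map_one' := by simp
      map_mul' := fun a b => by
        simpa using hmul a a.2 b b.2 }
  have hrange : f.range ≤ N := by
    rintro _ ⟨a, rfl⟩
    exact hexp a a.2
  have hker : p < Nat.card f.ker := by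
    have h1 := Subgroup.card_mul_index f.ker
    rw [Subgroup.index_ker, hAc] at h1
    have h2 : Nat.card f.range ≤ p := by
      rw [← hNp]; exact Subgroup.card_le_of_le hrange
    by_contra hle
    push Not at hle
    have h3 : Nat.card f.ker * Nat.card f.range ≤ p * p := Nat.mul_le_mul hle h2
    rw [h1] at h3
    have h4 : p * p < p ^ 3 := by
      have := hp.out.one_lt
      have hpos := hp.out.pos
      calc p * p = p ^ 2 * 1 := by ring
        _ < p ^ 2 * p := Nat.mul_lt_mul_of_pos_left this (by positivity)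
        _ = p ^ 3 := by ring
    omega
  refine ⟨f.ker.map A.subtype, ?_, ?_, ?_⟩
  · refine ⟨?_⟩
    rintro _ ⟨a, ha, rfl⟩ g
    have ha' : (a : P) ^ p = 1 := ha
    refine ⟨⟨g * a * g⁻¹, hA.conj_mem a a.2 g⟩, ?_, rfl⟩
    change (g * (a : P) * g⁻¹) ^ p = 1
    rw [conj_pow, ha', mul_one, mul_inv_cancel]
  · rw [Subgroup.card_map_of_injective A.subtype_injective]
    exact hker
  · rintro _ ⟨a, ha, rfl⟩
    exact ha

private theorem aux (p : ℕ) [hp : Fact p.Prime] (hp2 : p ≠ 2) : ∀ (n : ℕ) (P : Type u) [Group P]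
    [Finite P], Nat.card P = n → IsPGroup p P → ¬ IsCyclic P →
    ∃ K : Subgroup P, K.Normal ∧ p < Nat.card K ∧ ∀ a ∈ K, a ^ p = 1 := by
  intro n
  induction n using Nat.strong_induction_on with
  | _ n ih =>
  intro P _ _ hn hP hnc
  have hnt : Nontrivial P := by
    by_contra h
    rw [not_nontrivial_iff_subsingleton] at h
    exact hnc inferInstance
  have htop : (⊤ : Subgroup P) ≠ ⊥ := top_ne_bot
  obtain ⟨z, -, hzo, hzc⟩ := exists_central hP ⊤ htop
  have hN : (zpowers z).Normal := zpowers_normal_of_central hzc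
  have hNcard : Nat.card (zpowers z) = p := by rw [Nat.card_zpowers, hzo]
  set N := zpowers z with hNdef
  have hNc : N ≤ center P := zpowers_le.mpr hzc
  let π := QuotientGroup.mk' N
  have hπs : Function.Surjective π := QuotientGroup.mk'_surjective N
  have hQ : IsPGroup p (P ⧸ N) := hP.to_quotient N
  by_cases hcyc : IsCyclic (P ⧸ N)
  · have hcm : ∀ a b : P, a * b = b * a :=
      commutative_of_cyclic_center_quotient π (by rw [QuotientGroup.ker_mk']; exact hNc)
    -- the subgroup of elements with x ^ p = 1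
    let K : Subgroup P :=
      { carrier := {x | x ^ p = 1}
        mul_mem' := by
          intro a b ha hb
          change (a * b) ^ p = 1
          rw [(show Commute a b from hcm a b).mul_pow, ha, hb, one_mul]
        one_mem' := one_pow _
        inv_mem' := by
          intro a ha
          change a⁻¹ ^ p = 1
          rw [inv_pow, ha, inv_one] }
    have hKn : K.Normal := ⟨fun a ha g => by rw [hcm g a, mul_inv_cancel_right]; exact ha⟩
    refine ⟨K, hKn, ?_, fun a ha => ha⟩
    have hNK : N ≤ K := by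
      intro a ha
      have := orderOf_dvd_natCard (⟨a, ha⟩ : N)
      rw [hNcard] at this
      exact congrArg Subtype.val (orderOf_dvd_iff_pow_eq_one.mp this)
    rw [← hNcard]
    refine lt_of_le_of_ne (Subgroup.card_le_of_le hNK) ?_
    intro heq
    have hKN : N = K := Subgroup.eq_of_le_of_card_ge hNK heq.ge
    obtain ⟨gbar, hg⟩ := hcyc.exists_generator
    obtain ⟨g, rfl⟩ := hπs gbar
    apply hnc
    refine ⟨⟨g, ?_⟩⟩
    -- N ≤ ⟨g⟩
    have hNg : N ≤ zpowers g := by
      by_cases hg1 : g = 1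
      · -- then P / N is trivial, so P = N
        exfalso
        apply hnc
        have htriv : ∀ x : P, x ∈ N := by
          intro x
          have := hg (π x)
          rw [hg1, map_one, zpowers_one_eq_bot, mem_bot] at this
          rwa [← MonoidHom.mem_ker, QuotientGroup.ker_mk'] at this
        exact ⟨⟨z, fun x => htriv x⟩⟩
      · obtain ⟨k, hk⟩ := (IsPGroup.iff_orderOf.mp hP) g
        have hk0 : k ≠ 0 := by
          rintro rfl
          rw [pow_zero, orderOf_eq_one_iff] at hk
          exact hg1 hk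
        obtain ⟨m, rfl⟩ := Nat.exists_eq_succ_of_ne_zero hk0
        have hord : orderOf (g ^ (p ^ m)) = p := by
          rw [orderOf_pow' _ (pow_ne_zero _ hp.out.ne_zero), hk, pow_succ,
            Nat.gcd_eq_right (Dvd.intro _ rfl), Nat.mul_div_cancel_left _ (pow_pos hp.out.pos _)]
        have hmem : g ^ (p ^ m) ∈ N := by
          rw [hKN]
          change (g ^ (p ^ m)) ^ p = 1
          exact orderOf_dvd_iff_pow_eq_one.mp (dvd_of_eq hord)
        have hle : zpowers (g ^ (p ^ m)) ≤ N := zpowers_le.mpr hmem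
        have heq2 : zpowers (g ^ (p ^ m)) = N :=
          Subgroup.eq_of_le_of_card_ge hle
            (le_of_eq (hNcard.trans ((Nat.card_zpowers _).trans hord).symm))
        rw [← heq2]
        exact zpowers_le.mpr (pow_mem (mem_zpowers g) _)
    intro x
    obtain ⟨k, hk⟩ := mem_zpowers_iff.mp (hg (π x))
    have h1 : (g ^ k)⁻¹ * x ∈ N := by
      have : π ((g ^ k)⁻¹ * x) = 1 := by
        rw [map_mul, map_inv, map_zpow, hk, inv_mul_cancel]
      rwa [← MonoidHom.mem_ker, QuotientGroup.ker_mk'] at this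
    have h2 := (zpowers g).mul_mem (zpow_mem (mem_zpowers g) k) (hNg h1)
    rwa [mul_inv_cancel_left] at h2
  · have hcardlt : Nat.card (P ⧸ N) < n := by
      have h3 := Subgroup.card_eq_card_quotient_mul_card_subgroup N
      rw [hNcard, hn] at h3
      have hpos : 0 < Nat.card (P ⧸ N) := Nat.card_pos
      rw [h3]
      exact lt_mul_of_one_lt_right hpos hp.out.one_lt
    obtain ⟨K, hKn, hKc, hKe⟩ := ih _ hcardlt (P ⧸ N) rfl hQ hcyc
    obtain ⟨A, hAK, hAn, hAc⟩ := exists_normal_sq hQ K hKc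
    have hAcomm : ∀ a ∈ A, ∀ b ∈ A, a * b = b * a := by
      intro a ha b hb
      have := IsPGroup.commutative_of_card_eq_prime_sq (p := p) hAc ⟨a, ha⟩ ⟨b, hb⟩
      exact congrArg Subtype.val this
    have hBn : (A.comap π).Normal := hAn.comap π
    refine step hp2 N (A.comap π) hNc hNcard ?_ ?_ ?_
    · have h1 := Subgroup.card_mul_index (A.comap π)
      rw [Subgroup.index_comap_of_surjective _ hπs] at h1
      have h2 := Subgroup.card_mul_index A
      have h3 := Subgroup.card_eq_card_quotient_mul_card_subgroup N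
      rw [hNcard] at h3
      rw [hAc] at h2
      have hpos : 0 < A.index := Nat.pos_of_ne_zero Subgroup.index_ne_zero_of_finite
      have h4 : Nat.card (A.comap π) * A.index = (p ^ 3) * A.index := by
        rw [h1, h3, ← h2]; ring
      exact Nat.eq_of_mul_eq_mul_right hpos h4
    · intro a ha
      have h := hKe (π a) (hAK ha)
      rwa [← map_pow, ← MonoidHom.mem_ker, QuotientGroup.ker_mk'] at h
    · intro a ha b hb
      have h := hAcomm (π a) ha (π b) hb
      have : π (a * b * a⁻¹ * b⁻¹) = 1 := by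
        rw [map_mul, map_mul, map_mul, map_inv, map_inv, h]
        group
      rwa [← MonoidHom.mem_ker, QuotientGroup.ker_mk'] at this

/-- (C7) A noncyclic finite p-group, `p` odd, has a normal elementary abelian subgroup of order
`p ^ 2`. -/
theorem exists_normal_el2 {P : Type*} [Group P] [Finite P] {p : ℕ} [Fact p.Prime] (hp2 : p ≠ 2)
    (hP : IsPGroup p P) (hnc : ¬ IsCyclic P) :
    ∃ A : Subgroup P, A.Normal ∧ Nat.card A = p ^ 2 ∧ (∀ a ∈ A, a ^ p = 1) ∧
      ∀ a ∈ A, ∀ b ∈ A, a * b = b * a := by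
  obtain ⟨K, hKn, hKc, hKe⟩ := aux p hp2 _ P rfl hP hnc
  obtain ⟨A, hAK, hAn, hAc⟩ := exists_normal_sq hP K hKc
  refine ⟨A, hAn, hAc, fun a ha => hKe a (hAK ha), ?_⟩
  intro a ha b hb
  have := IsPGroup.commutative_of_card_eq_prime_sq (p := p) hAc ⟨a, ha⟩ ⟨b, hb⟩
  exact congrArg Subtype.val this

/-- (C6) A finite p-group, `p` odd, with at most one subgroup of order `p` is cyclic. -/
theorem isCyclic_of_unique {P : Type*} [Group P] [Finite P] {p : ℕ} [hp : Fact p.Prime]
    (hp2 : p ≠ 2) (hP : IsPGroup p P)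
    (h : ∀ x y : P, x ^ p = 1 → y ^ p = 1 → x ≠ 1 → y ∈ zpowers x) : IsCyclic P := by
  by_contra hnc
  obtain ⟨A, -, hAc, hAe, -⟩ := exists_normal_el2 hp2 hP hnc
  have hAb : A ≠ ⊥ := by
    rintro rfl
    rw [Subgroup.card_bot] at hAc
    have := hp.out.one_lt
    nlinarith
  obtain ⟨x, hx, hx1⟩ := A.ne_bot_iff_exists_ne_one.mp hAb |>.elim (fun a ha => ⟨(a : P), a.2,
    fun h => ha (Subtype.ext h)⟩) |> fun (h : ∃ x, x ∈ A ∧ x ≠ 1) => h
  have hle : A ≤ zpowers x := fun y hy => h x y (hAe x hx) (hAe y hy) hx1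
  have h1 := Subgroup.card_le_of_le hle
  rw [Nat.card_zpowers, hAc] at h1
  have h2 : orderOf x ≤ p := Nat.le_of_dvd hp.out.pos (orderOf_dvd_of_pow_eq_one (hAe x hx))
  have := hp.out.one_lt
  nlinarith

/-- (C7), subgroup form. -/
theorem exists_normal_el2_sub {G : Type*} [Group G] [Finite G] {p : ℕ} [Fact p.Prime]
    (hp2 : p ≠ 2) {P : Subgroup G} (hP : IsPGroup p P) (hnc : ¬ IsCyclic P) :
    ∃ A : Subgroup G, A ≤ P ∧ P ≤ normalizer (A : Set G) ∧ Nat.card A = p ^ 2 ∧
      (∀ a ∈ A, a ^ p = 1) ∧ ∀ a ∈ A, ∀ b ∈ A, a * b = b * a := by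
  obtain ⟨A, hAn, hAc, hAe, hAcm⟩ := exists_normal_el2 hp2 hP hnc
  refine ⟨A.map P.subtype, ?_, ?_, ?_, ?_, ?_⟩
  · rintro _ ⟨a, -, rfl⟩
    exact a.2
  · intro g hg
    rw [mem_normalizer_iff]
    intro x
    constructor
    · rintro ⟨a, ha, rfl⟩
      exact ⟨⟨g, hg⟩ * a * ⟨g, hg⟩⁻¹, hAn.conj_mem a ha _, rfl⟩
    · rintro ⟨a, ha, hax⟩
      refine ⟨⟨g, hg⟩⁻¹ * a * ⟨g, hg⟩⁻¹⁻¹, hAn.conj_mem a ha _, ?_⟩
      have : (a : G) = g * x * g⁻¹ := hax
      simp only [Subgroup.subtype_apply, Subgroup.coe_mul, InvMemClass.coe_inv, this]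
      group
  · rw [Subgroup.card_map_of_injective P.subtype_injective, hAc]
  · rintro _ ⟨a, ha, rfl⟩
    have := hAe a ha
    exact congrArg Subtype.val this
  · rintro _ ⟨a, ha, rfl⟩ _ ⟨b, hb, rfl⟩
    exact congrArg Subtype.val (hAcm a ha b hb)

/-- (C6), subgroup form. -/
theorem isCyclic_of_unique_sub {G : Type*} [Group G] [Finite G] {p : ℕ} [Fact p.Prime]
    (hp2 : p ≠ 2) {P : Subgroup G} (hP : IsPGroup p P)
    (h : ∀ x ∈ P, ∀ y ∈ P, x ^ p = 1 → y ^ p = 1 → x ≠ 1 → y ∈ zpowers x) : IsCyclic P := by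
  refine isCyclic_of_unique hp2 hP ?_
  intro x y hx hy hx1
  have h1 := h x x.2 y y.2 (congrArg Subtype.val hx) (congrArg Subtype.val hy)
    (fun h => hx1 (Subtype.ext h))
  obtain ⟨k, hk⟩ := mem_zpowers_iff.mp h1
  exact mem_zpowers_iff.mpr ⟨k, Subtype.ext (by simpa using hk)⟩

end H23.FT
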