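import Pool.Agent.H3.FT.S4

/-!
Section 5.1 of the local analysis, and Sylow arguments used in 5.2.
`NC p q` says that no normaliser of a Sylow `p`-subgroup is the normaliser of a Sylow
`q`-subgroup, that is, the classes of `M_P` and `M_Q` are different.
-/

namespace H23.FT

open Subgroup H51.FT H57.FT Pool.Agent.H3.FT
open scoped Pointwise commutatorElement

variable {G : Type*} [Group G] [Finite G]

/-- the classes of the normalisers of the Sylow `p`- and `q`-subgroups are different -/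
def NC (p q : ℕ) (G : Type*) [Group G] : Prop :=
  ∀ (P : Sylow p G) (Q : Sylow q G), normalizer (P : Set G) ≠ normalizer (Q : Set G)

omit [Finite G] in
lemma NC.symm {p q : ℕ} (h : NC p q G) : NC q p G := fun Q P e => h P Q e.symm

lemma isSyl_of_not_dvd {q : ℕ} [hq : Fact q.Prime] {L S : Subgroup G} (hSL : S ≤ L)
    (hS : IsPGroup q S) (hi : ¬ q ∣ S.relIndex L) : IsSyl q L S := by
  refine ⟨hSL, hS, ?_⟩
  intro T hT hTp hST
  have h1 := relIndex_mul_relIndex S T L hST hT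
  obtain ⟨n, hn⟩ := IsPGroup.iff_card.mp hTp
  have h2 : S.relIndex T ∣ q ^ n := by
    rw [← hn]; exact relIndex_dvd_card S T
  obtain ⟨k, hk, hk2⟩ := (Nat.dvd_prime_pow hq.out).mp h2
  have h3 : S.relIndex T = 1 := by
    rcases Nat.eq_zero_or_pos k with h0 | h0
    · rw [hk2, h0, pow_zero]
    · exfalso
      apply hi
      rw [← h1, hk2]
      exact Dvd.dvd.mul_right (dvd_pow_self q h0.ne') _
  exact le_antisymm (relIndex_eq_one.mp h3) hST

lemma isSyl_not_dvd {q : ℕ} [hq : Fact q.Prime] {L S : Subgroup G} (h : IsSyl q L S) :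
    ¬ q ∣ S.relIndex L := h.toSylow.not_dvd_index

/-- a `q`-subgroup of `L` is conjugate in `L` into a subgroup of index prime to `q` -/
lemma exists_conj_le {q : ℕ} [hq : Fact q.Prime] {L C T : Subgroup G} (hCL : C ≤ L)
    (hi : ¬ q ∣ C.relIndex L) (hTL : T ≤ L) (hT : IsPGroup q T) :
    ∃ c ∈ L, ∀ t ∈ T, c * t * c⁻¹ ∈ C := by
  obtain ⟨S, hS, -⟩ := exists_isSyl (p := q) (bot_le : (⊥ : Subgroup G) ≤ C) IsPGroup.of_bot
  have h1 := relIndex_mul_relIndex S C L hS.1 hCL
  have h2 : IsSyl q L S := by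
    refine isSyl_of_not_dvd (hS.1.trans hCL) hS.2.1 ?_
    rw [← h1]
    intro h
    rcases (hq.out.dvd_mul).mp h with h | h
    · exact isSyl_not_dvd hS h
    · exact hi h
  obtain ⟨S2, hS2, hTS⟩ := exists_isSyl hTL hT
  obtain ⟨c, hc, hcS⟩ := hS2.exists_conj h2
  refine ⟨c, hc, fun t ht => hS.1 ?_⟩
  rw [← hcS]
  exact Subgroup.smul_mem_pointwise_smul t (MulAut.conj c) S2 (hTS ht)

/-- the index of `C` in `L = H C`, `H` normal in `L`, divides the order of `H` -/
lemma relIndex_dvd_of_mul {L H C : Subgroup G} (hHL : H ≤ L) (hCL : C ≤ L)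
    (hn : L ≤ normalizer (H : Set G)) (hmul : ∀ g ∈ L, ∃ h ∈ H, ∃ m ∈ C, g = h * m) :
    C.relIndex L ∣ Nat.card H := by
  have hnor : (H.subgroupOf L).Normal := by
    refine ⟨fun n hn' g => ?_⟩
    rw [mem_subgroupOf] at hn' ⊢
    exact (mem_normalizer_iff.mp (hn g.2) n).mp hn'
  have hsup : C.subgroupOf L ⊔ H.subgroupOf L = ⊤ := by
    rw [eq_top_iff]
    rintro ⟨g, hg⟩ -
    obtain ⟨h, hh, m, hm, e⟩ := hmul g hg
    have e2 : (⟨g, hg⟩ : L) = ⟨h, hHL hh⟩ * ⟨m, hCL hm⟩ := Subtype.ext e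
    rw [e2]
    exact mul_mem (mem_sup_right (mem_subgroupOf.mpr hh)) (mem_sup_left (mem_subgroupOf.mpr hm))
  have h1 : (H.subgroupOf L).relIndex (C.subgroupOf L ⊔ H.subgroupOf L) =
      (H.subgroupOf L).relIndex (C.subgroupOf L) := relIndex_sup_right _ _
  rw [hsup, relIndex_top_right] at h1
  have h2 : (H.subgroupOf L).index ∣ Nat.card (C.subgroupOf L) := by
    rw [h1]; exact relIndex_dvd_card _ _
  obtain ⟨k, hk⟩ := h2
  have h3 := card_mul_index (H.subgroupOf L)
  have h4 := card_mul_index (C.subgroupOf L)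
  have h5 : (H.subgroupOf L).index ≠ 0 := index_ne_zero_of_finite
  have h6 : Nat.card (H.subgroupOf L) = k * (C.subgroupOf L).index := by
    apply Nat.eq_of_mul_eq_mul_left (Nat.pos_of_ne_zero h5)
    calc (H.subgroupOf L).index * Nat.card (H.subgroupOf L) = Nat.card L := by
          rw [mul_comm]; exact h3
      _ = Nat.card (C.subgroupOf L) * (C.subgroupOf L).index := h4.symm
      _ = (H.subgroupOf L).index * (k * (C.subgroupOf L).index) := by rw [hk]; ring
  have h7 : Nat.card (H.subgroupOf L) = Nat.card H :=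
    Nat.card_congr (subgroupOfEquivOfLe hHL).toEquiv
  rw [← h7, h6]
  exact Dvd.intro_left k rfl

/-- a `q`-element of `L = H C` (`H` normal in `L`, of order prime to `q`) is conjugate in `L` to an
element of `C` -/
lemma exists_conj_mem {q : ℕ} [hq : Fact q.Prime] {L H C : Subgroup G} (hHL : H ≤ L)
    (hCL : C ≤ L) (hn : L ≤ normalizer (H : Set G))
    (hmul : ∀ g ∈ L, ∃ h ∈ H, ∃ m ∈ C, g = h * m) (hqH : ¬ q ∣ Nat.card H) {y : G} (hy : y ∈ L)
    {k : ℕ} (hyq : y ^ q ^ k = 1) : ∃ c ∈ L, c * y * c⁻¹ ∈ C := by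
  have hp : IsPGroup q (zpowers y) := by
    rintro ⟨w, hw⟩
    obtain ⟨i, rfl⟩ := mem_zpowers_iff.mp hw
    refine ⟨k, Subtype.ext ?_⟩
    change (y ^ i) ^ q ^ k = 1
    rw [← zpow_natCast, ← zpow_mul, mul_comm, zpow_mul, zpow_natCast, hyq, one_zpow]
  obtain ⟨c, hc, h⟩ := exists_conj_le hCL
    (fun h => hqH (h.trans (relIndex_dvd_of_mul hHL hCL hn hmul))) (zpowers_le.mpr hy) hp
  exact ⟨c, hc, h y (mem_zpowers y)⟩

variable [IsSimpleGroup G]

variable (hG : _root_.commutator G = ⊤) (hodd : Odd (Nat.card G))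
  (hNA : ∀ H : Subgroup G, H < ⊤ → Group.IsNilpotent (_root_.commutator H))
  {p : ℕ} [hp : Fact p.Prime] (P : Sylow p G)

omit [Finite G] [IsSimpleGroup G] hp in
lemma sylow_ne_bot {x : G} (hx : x ∈ P) (hx1 : x ≠ 1) : (P : Subgroup G) ≠ ⊥ := by
  intro h
  apply hx1
  have : x ∈ (P : Subgroup G) := hx
  rwa [h, mem_bot] at this

omit [Finite G] [IsSimpleGroup G] in
lemma ne_one_of_orderOf {x : G} (hxp : orderOf x = p) : x ≠ 1 := by
  rintro rfl
  rw [orderOf_one] at hxp
  exact hp.out.one_lt.ne hxp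

omit [IsSimpleGroup G] in
/-- Sylow subgroups are nontrivial for the primes dividing `|G|` -/
lemma sylow_ne_bot' {P Q : Sylow p G} (hP : (P : Subgroup G) ≠ ⊥) : (Q : Subgroup G) ≠ ⊥ := by
  obtain ⟨g, rfl⟩ := MulAction.exists_smul_eq G P Q
  intro h
  apply hP
  rw [Sylow.coe_subgroup_smul] at h
  rw [eq_bot_iff]
  intro x hx
  have h1 := Subgroup.smul_mem_pointwise_smul x (MulAut.conj g) (P : Subgroup G) hx
  change g * x * g⁻¹ ∈ MulAut.conj g • (P : Subgroup G) at h1
  rw [h, mem_bot] at h1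
  rw [mem_bot]
  have : x = g⁻¹ * (g * x * g⁻¹) * g := by group
  rw [this, h1]; group

include hG hNA in
/-- if the classes are different then no Sylow `q`-subgroup is normalised by `M_P` -/
lemma NC.not_le {q : ℕ} [Fact q.Prime] (h : NC p q G) (P : Sylow p G) {Q : Sylow q G}
    (hP : (P : Subgroup G) ≠ ⊥) (hQ : (Q : Subgroup G) ≠ ⊥) (T : Sylow q G) :
    ¬ normalizer (P : Set G) ≤ normalizer (T : Set G) := by
  intro hle
  have hT : (T : Subgroup G) ≠ ⊥ := sylow_ne_bot' hQ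
  have h1 : normalizer (T : Set G) < ⊤ :=
    lt_top_iff_ne_top.mpr (normalizer_ne_top hG T.2 hT)
  exact h P T (eq_normalizer_of_le (sylC hG hNA) hG hNA P hP h1 hle).symm

include hG hodd hNA in
/-- `x ∈ P` bad of order `p`, `y` of order `q ≠ p` commuting with `x`, `q` prime to `|H(x)|`: then
`y` centralises a Sylow `p`-subgroup containing `x`. -/
theorem exists_sylow_cent {q : ℕ} [hq : Fact q.Prime] (hpq : p ≠ q) {x y : G} (hb : Bad P x)
    (hyq : orderOf y = q) (hxy : x * y = y * x) (h1 : ¬ q ∣ Nat.card (HH x)) :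
    ∃ P' : Sylow p G, x ∈ P' ∧ ∀ a ∈ P', a * y = y * a := by
  obtain ⟨c, hc, hcy⟩ := exists_conj_mem (q := q) (k := 1) (HH_le x)
    (inf_le_left : centralizer ({x} : Set G) ⊓ normalizer (P : Set G) ≤ _) (HH_normal x)
    (fun g hg => HH_dec hG hodd hNA P hb.1 hb.2.1 hg) h1
    (y := y) (mem_centralizer_singleton_iff.mpr hxy.symm)
    (by rw [pow_one, ← hyq]; exact pow_orderOf_eq_one y)
  have h2 : c * y * c⁻¹ ∈ centralizer (P : Set G) := by
    refine cent_pprime hG hodd hNA P hb hcy.2 ?_ ?_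
    · exact (mem_centralizer_singleton_iff.mp hcy.1)
    · rw [IsKp.orderOf_conj, hyq]
      intro h
      exact hpq ((Nat.prime_dvd_prime_iff_eq hp.out hq.out).mp h)
  refine ⟨c⁻¹ • P, ?_, ?_⟩
  · have h3 := Subgroup.smul_mem_pointwise_smul x (MulAut.conj c⁻¹) (P : Subgroup G) hb.1
    change x ∈ ((c⁻¹ • P : Sylow p G) : Subgroup G)
    rw [Sylow.coe_subgroup_smul]
    have h4 : MulAut.conj c⁻¹ • x = x := by
      change c⁻¹ * x * c⁻¹⁻¹ = x
      have := mem_centralizer_singleton_iff.mp hc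
      rw [inv_inv, mul_assoc, ← this, inv_mul_cancel_left]
    rwa [h4] at h3
  · intro a ha
    change a ∈ ((c⁻¹ • P : Sylow p G) : Subgroup G) at ha
    rw [Sylow.coe_subgroup_smul, map_inv, mem_inv_pointwise_smul_iff] at ha
    have h5 := (mem_centralizer_iff.mp h2) (c * a * c⁻¹) ha
    have h6 : c * (a * y) * c⁻¹ = c * (y * a) * c⁻¹ := by
      calc c * (a * y) * c⁻¹ = c * a * c⁻¹ * (c * y * c⁻¹) := by group
        _ = c * y * c⁻¹ * (c * a * c⁻¹) := h5
        _ = _ := by group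
    exact mul_left_cancel (mul_right_cancel h6)

include hG hodd hNA in
/-- one half of (5.1) -/
theorem five_one_left {q : ℕ} [hq : Fact q.Prime] (hpq : p ≠ q) (hn : NC p q G) (Q : Sylow q G)
    {x y : G} (hx : x ∈ P) (hxp : orderOf x = p) (hy : y ∈ Q) (hyq : orderOf y = q)
    (hxy : x * y = y * x) (h1 : ¬ q ∣ Nat.card (HH x)) (h2 : ¬ p ∣ Nat.card (HH y)) :
    centralizer ({x} : Set G) ≤ normalizer (P : Set G) := by
  by_contra hbad
  have hb : Bad P x := ⟨hx, hxp, hbad⟩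
  obtain ⟨P', hxP', hP'⟩ := exists_sylow_cent hG hodd hNA P hpq hb hyq hxy h1
  have hx1 := ne_one_of_orderOf hxp
  have hPb := sylow_ne_bot P' hxP' hx1
  have hQb := sylow_ne_bot Q hy (ne_one_of_orderOf hyq)
  obtain ⟨-, -, h3, -⟩ := four_five hG hodd hNA P' hPb hpq Q hy hyq hP'
    (hn.not_le hG hNA P' hPb hQb)
  apply h2
  have h4 : orderOf x ∣ Nat.card (HH y) := by
    have := orderOf_dvd_natCard (⟨x, h3 hxP'⟩ : HH y)
    rwa [← orderOf_submonoid] at this
  rwa [hxp] at h4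

include hG hodd hNA in
/-- **(5.1)** commuting elements of prime orders from different classes, neither in the `H` of the
other: both are good -/
theorem five_one {q : ℕ} [hq : Fact q.Prime] (hpq : p ≠ q) (hn : NC p q G) (Q : Sylow q G)
    {x y : G} (hx : x ∈ P) (hxp : orderOf x = p) (hy : y ∈ Q) (hyq : orderOf y = q)
    (hxy : x * y = y * x) (h1 : ¬ q ∣ Nat.card (HH x)) (h2 : ¬ p ∣ Nat.card (HH y)) :
    centralizer ({x} : Set G) ≤ normalizer (P : Set G) ∧
      centralizer ({y} : Set G) ≤ normalizer (Q : Set G) :=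
  ⟨five_one_left hG hodd hNA P hpq hn Q hx hxp hy hyq hxy h1 h2,
    five_one_left hG hodd hNA Q hpq.symm hn.symm P hy hyq hx hxp hxy.symm h2 h1⟩

end H23.FT
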