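import Pool.Agent.H23.FT.S5B
import Pool.Agent.H51.FT.Pair

/-!
Section 5.2 in the form used by the counting argument, and the statement on commuting elements.
-/

namespace H23.FT

open Subgroup H51.FT H57.FT Pool.Agent.H3.FT
open scoped Pointwise commutatorElement

variable {G : Type*} [Group G] [Finite G] [IsSimpleGroup G]

/-- (5.2): `[N,N] ≤ F_N` -/
theorem comm_le_FM (hG : _root_.commutator G = ⊤) (hodd : Odd (Nat.card G))
    (hNA : ∀ H : Subgroup G, H < ⊤ → Group.IsNilpotent (_root_.commutator H))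
    {p q : ℕ} [hp : Fact p.Prime] [hq : Fact q.Prime] (P : Sylow p G) (Q : Sylow q G)
    (hpq : p ≠ q) (hn : H23.FT.NC p q G) {x y : G} (hx : Good P x)
    (hxp : orderOf x = p) (hy : Good Q y) (hyq : orderOf y = q) (hxy : x * y = y * x) :
    (⁅normalizer (Q : Set G), normalizer (Q : Set G)⁆ : Subgroup G) ≤
      FM (normalizer (Q : Set G)) := by
  have hQb : (Q : Subgroup G) ≠ ⊥ := sylow_ne_bot Q hy.1 hy.2.1
  intro v hv
  refine mem_of_parts ?_
  intro s hs w hw ⟨k, hk⟩
  have hsf : Fact s.Prime := ⟨hs⟩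
  by_cases hw1 : w = 1
  · rw [hw1]; exact one_mem _
  have hwc := (zpowers_le.mpr hv) hw
  obtain ⟨T, hT⟩ := five_two_comm hG hodd hNA P Q hpq hn hx hxp hy hyq hxy hwc hk hw1
  obtain ⟨T0, hT0⟩ := (isPGroup_zpowers hk).exists_le_sylow
  have hTb : (T : Subgroup G) ≠ ⊥ := sylow_ne_bot' (sylow_ne_bot T0 (hT0 (mem_zpowers _)) hw1)
  have e1 : normalizer (T : Set G) = normalizer (Q : Set G) :=
    eq_normalizer_of_le (sylC hG hNA) hG hNA Q hQb
      (lt_top_iff_ne_top.mpr (normalizer_ne_top hG T.2 hTb)) hT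
  refine le_FM' hs T e1 ?_
  exact H23.FT.mem_of_mem_normalizer T hk (hT (comm_le_self _ hwc))

/-- **(5.2)** -/
theorem s52 (hG : _root_.commutator G = ⊤) (hodd : Odd (Nat.card G))
    (hNA : ∀ H : Subgroup G, H < ⊤ → Group.IsNilpotent (_root_.commutator H)) : S52 G := by
  intro p q hp hq P Q x y hx hxp hy hyq hxy hNC
  have hpq : p ≠ q := hNC.prime_ne
  refine ⟨fun a ha b hb => ?_, fun m hm => ?_⟩
  · exact five_two_abelian hG hodd hNA P Q hpq hNC.to_num hx hxp hy hyq hxy ha hb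
  · obtain ⟨k, hk, z, hz, e⟩ := five_two_fac hG hNA Q P hy hx hxy.symm m hm
    exact ⟨k, comm_le_FM hG hodd hNA Q P hpq.symm hNC.to_num.symm hy hyq hx hxp hxy.symm hk, z,
      ⟨hz.2, hz.1⟩, e⟩

/-- **(PAIR)** commuting elements of prime orders of different classes: one of them lies in the
group `H` of the other -/
theorem pair (hG : _root_.commutator G = ⊤) (hodd : Odd (Nat.card G))
    (hNA : ∀ H : Subgroup G, H < ⊤ → Group.IsNilpotent (_root_.commutator H))
    {p q : ℕ} [hp : Fact p.Prime] [hq : Fact q.Prime] (P : Sylow p G) (Q : Sylow q G) {x y : G}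
    (hx : x ∈ P) (hxp : orderOf x = p) (hy : y ∈ Q) (hyq : orderOf y = q)
    (hxy : x * y = y * x) (hNC : H51.FT.NC (normalizer (P : Set G)) (normalizer (Q : Set G))) :
    y ∈ HH x ∨ x ∈ HH y :=
  pair_of hG hodd hNA (s52 hG hodd hNA) P Q hx hxp hy hyq hxy hNC

end H23.FT
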