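import Pool.Agent.H23.FT.S5A

/-!
Section 5.2 of the local analysis.
-/

namespace H23.FT

open Subgroup H51.FT H57.FT Pool.Agent.H3.FT
open scoped Pointwise commutatorElement

variable {G : Type*} [Group G] [Finite G]

omit [Finite G] in
/-- a `p`-subgroup normalising the Sylow subgroup `P` is contained in `P` -/
lemma le_of_le_normalizer {p : ℕ} (P : Sylow p G) {T : Subgroup G} (hT : IsPGroup p T)
    (h : T ≤ normalizer (P : Set G)) : T ≤ P := by
  have h1 : IsPGroup p (T ⊔ P : Subgroup G) := hT.to_sup_of_normal_right' P.2 h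
  have h2 := P.is_maximal' h1 le_sup_right
  rw [← h2]
  exact le_sup_left

omit [Finite G] in
lemma isPGroup_zpowers {p k : ℕ} {g : G} (hg : g ^ p ^ k = 1) : IsPGroup p (zpowers g) := by
  rintro ⟨w, hw⟩
  obtain ⟨i, rfl⟩ := mem_zpowers_iff.mp hw
  refine ⟨k, Subtype.ext ?_⟩
  change (g ^ i) ^ p ^ k = 1
  rw [← zpow_natCast, ← zpow_mul, mul_comm, zpow_mul, zpow_natCast, hg, one_zpow]

omit [Finite G] in
lemma mem_of_mem_normalizer {p k : ℕ} (P : Sylow p G) {g : G} (hg : g ^ p ^ k = 1)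
    (h : g ∈ normalizer (P : Set G)) : g ∈ P :=
  le_of_le_normalizer P (isPGroup_zpowers hg) (zpowers_le.mpr h) (mem_zpowers g)

/-- the Sylow `q`-subgroup of a subgroup containing a good element -/
lemma isSyl_good {q : ℕ} [hq : Fact q.Prime] (h12 : SylC q G) {Q : Sylow q G} {y : G}
    (h : Good Q y) {M : Subgroup G} (hy : y ∈ M) : IsSyl q M ((Q : Subgroup G) ⊓ M) := by
  refine ⟨inf_le_right, Q.2.to_le inf_le_left, ?_⟩
  intro T hT hTp hle
  exact le_antisymm (le_inf (h.le h12 hTp (hle ⟨h.1, hy⟩)) hT) hle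

/-- a `p`-element normalising a group of order `p` centralises it -/
lemma comm_of_normalizer {p k : ℕ} [hp : Fact p.Prime] {u x : G} (hu : orderOf u = p)
    (hx : x ^ p ^ k = 1) (hn : x ∈ normalizer (zpowers u : Set G)) : x * u = u * x := by
  have hD : IsPGroup p (zpowers u) :=
    isPGroup_zpowers (k := 1) (by rw [pow_one, ← hu]; exact pow_orderOf_eq_one u)
  have hDb : zpowers u ≠ ⊥ := by
    rw [Ne, zpowers_eq_bot]
    rintro rfl
    rw [orderOf_one] at hu
    exact hp.out.one_lt.ne hu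
  have h1 := comm_lt_of_pgroup hp.out hD (isPGroup_zpowers hx) (zpowers_le.mpr hn) hDb
  have h2 : (⁅zpowers u, zpowers x⁆ : Subgroup G) = ⊥ := by
    have h3 : Nat.card (⁅zpowers u, zpowers x⁆ : Subgroup G) ∣ Nat.card (zpowers u) :=
      card_dvd_of_le h1.le
    rw [Nat.card_zpowers, hu] at h3
    rcases (Nat.dvd_prime hp.out).mp h3 with h4 | h4
    · exact Subgroup.card_eq_one.mp h4
    · exfalso
      apply h1.ne
      apply Subgroup.eq_of_le_of_card_ge h1.le
      rw [Nat.card_zpowers, hu, h4]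
  rw [commutator_eq_bot_iff_le_centralizer] at h2
  exact mem_centralizer_iff.mp (h2 (mem_zpowers u)) x (mem_zpowers x)

/-- in a proper subgroup, elements of `[M,M]` commute with the elements of an abelian normal Sylow
subgroup `P ≤ [M,M]` -/
lemma comm_mem_centralizer {p : ℕ} [hp : Fact p.Prime] (P : Sylow p G)
    (hM : Group.IsNilpotent (_root_.commutator (normalizer (P : Set G))))
    (hab : ∀ a ∈ P, ∀ b ∈ P, a * b = b * a) {k : G}
    (hk : k ∈ (⁅normalizer (P : Set G), normalizer (P : Set G)⁆ : Subgroup G)) {a : G}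
    (ha : a ∈ P) : k * a = a * k := by
  obtain ⟨K, hK⟩ := exists_isKp (p := p) hM
  obtain ⟨u, v, rfl, hu, hv, ⟨j, hj⟩, hvc⟩ := exists_decomp p k
  have hu1 := (zpowers_le.mpr hk) hu
  have hv1 := (zpowers_le.mpr hk) hv
  have huP : u ∈ P := mem_of_mem_normalizer P hj (comm_le_self _ hu1)
  have hvK : v ∈ K := (hK.mem v).mpr ⟨hv1, hvc⟩
  have h1 := hK.le_centralizer le_normalizer P.2 le_rfl hvK
  have h2 : a * v = v * a := mem_centralizer_iff.mp h1 a ha
  calc u * v * a = u * (v * a) := by group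
    _ = u * a * v := by rw [← h2]; group
    _ = a * u * v := by rw [hab u huP a ha]
    _ = a * (u * v) := by group

omit [Finite G] in
/-- `H(x)` depends only on `⟨x⟩` -/
lemma HH_congr {x x' : G} (h : zpowers x' = zpowers x) : HH x' = HH x := by
  have h1 : orderOf x' = orderOf x := by rw [← Nat.card_zpowers, h, Nat.card_zpowers]
  have h2 : centralizer ({x'} : Set G) = centralizer {x} := by
    have key : ∀ a b : G, zpowers a = zpowers b →
        centralizer ({a} : Set G) ≤ centralizer {b} := by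
      intro a b hab c hc
      rw [mem_centralizer_singleton_iff] at hc ⊢
      have hb : b ∈ zpowers a := by rw [hab]; exact mem_zpowers b
      obtain ⟨i, rfl⟩ := mem_zpowers_iff.mp hb
      exact (show Commute c a from hc).zpow_right i
    exact le_antisymm (key _ _ h) (key _ _ h.symm)
  unfold HH HS
  rw [h1, h2]

/-- the normaliser of `⟨x⟩` normalises `H(x)` -/
lemma normalizer_le_HH {x : G} :
    normalizer (zpowers x : Set G) ≤ normalizer (HH x : Set G) := by
  intro n hn
  have h1 : zpowers (n * x * n⁻¹) = zpowers x := by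
    apply Subgroup.eq_of_le_of_card_ge
    · rw [zpowers_le]
      exact (mem_normalizer_iff.mp hn x).mp (mem_zpowers x)
    · rw [Nat.card_zpowers, Nat.card_zpowers, IsKp.orderOf_conj]
  have h2 := HH_conj n x
  rw [HH_congr h1] at h2
  have h3 : ∀ h ∈ HH x, n * h * n⁻¹ ∈ HH x := by
    intro h hh
    have := Subgroup.smul_mem_pointwise_smul h (MulAut.conj n) (HH x) hh
    rw [← h2] at this
    exact this
  rw [mem_normalizer_iff]
  intro h
  constructor
  · exact h3 h
  · intro hh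
    rw [h2] at hh
    have : MulAut.conj n • h ∈ MulAut.conj n • HH x := hh
    exact Subgroup.smul_mem_pointwise_smul_iff.mp this

section simple
variable [IsSimpleGroup G]

variable (hG : _root_.commutator G = ⊤) (hodd : Odd (Nat.card G))
  (hNA : ∀ H : Subgroup G, H < ⊤ → Group.IsNilpotent (_root_.commutator H))
  {p q : ℕ} [hp : Fact p.Prime] [hq : Fact q.Prime] (P : Sylow p G) (Q : Sylow q G)

include hG hNA in
/-- `M = K (M ⊓ N)`, where `K` is the `q'`-part of `[M,M]`, `N = N_G(Q)` and `M` contains a good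
element of `Q` -/
lemma fac {M K : Subgroup G} (hM : M < ⊤) {y : G} (hy : Good Q y) (hyM : y ∈ M)
    (hK : IsKp q M K) : ∀ m ∈ M, ∃ k ∈ K, ∃ n ∈ M ⊓ normalizer (Q : Set G), m = k * n := by
  intro m hm
  have h12 : SylC q G := sylC hG hNA
  have h1 := isSyl_good h12 hy hyM
  obtain ⟨k, hk, n, hn, e⟩ := hK.le_sup_normalizer (hNA M hM) h1 m hm
  refine ⟨k, hk, n, ⟨hn.1, ?_⟩, e⟩
  exact hy.normalizer_le h12 h1.2.1 ⟨hy.1, hyM⟩ hn.2

include hG hodd hNA in
/-- (*) in the proof of (5.2) -/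
lemma star (hpq : p ≠ q) (hn : NC p q G) (hPb : (P : Subgroup G) ≠ ⊥) {y : G} (hy : Good Q y)
    (hyM : y ∈ normalizer (P : Set G)) :
    ¬ (P : Subgroup G) ≤ normalizer (Q : Set G) := by
  intro hPN
  have hQb : (Q : Subgroup G) ≠ ⊥ := sylow_ne_bot Q hy.1 hy.2.1
  have hM : normalizer (P : Set G) < ⊤ := lt_top_iff_ne_top.mpr (normalizer_ne_top hG P.2 hPb)
  by_cases hc : ∀ a ∈ P, ∀ b ∈ Q, a * b = b * a
  · exact hn P Q (four_one hG hodd hNA P hPb hpq Q hQb hc)
  · push Not at hc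
    obtain ⟨a, ha, b, hb, hab⟩ := hc
    have harr : Pool.Agent.H91.FT.Arr P Q := ⟨hPN, a, ha, b, hb, hab⟩
    have hcom : ∀ a ∈ P, ∀ b ∈ P, a * b = b * a := fun a ha b hb =>
      harr.comm hG hNA hpq ha hb
    obtain ⟨K, hK⟩ := exists_isKp (p := q) (hNA _ hM)
    have h1 : normalizer (P : Set G) ≤ centralizer (P : Set G) := by
      intro m hm
      obtain ⟨k, hk, n, hn', rfl⟩ := fac hG hNA Q hM hy hyM hK m hm
      rw [mem_centralizer_iff]
      intro a ha
      have h2 : k * a = a * k := comm_mem_centralizer P (hNA _ hM) hcom (hK.le_comm hk) ha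
      have h3 : n * a = a * n := harr.inf_le hG hNA hpq hn'.1 hn'.2 ha
      calc a * (k * n) = a * k * n := by group
        _ = k * (a * n) := by rw [← h2]; group
        _ = k * n * a := by rw [← h3]; group
    have h2 := le_comm_normalizer (sylC hG hNA) P hG
    have h3 : (⁅(P : Subgroup G), normalizer (P : Set G)⁆ : Subgroup G) = ⊥ := by
      rw [commutator_comm, commutator_eq_bot_iff_le_centralizer]
      exact h1
    rw [h3] at h2
    exact hPb (le_bot_iff.mp h2)

include hG hodd hNA in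
/-- (5.2), the case `s = p` -/
lemma case_same (hpq : p ≠ q) (hn : NC p q G) {x y u : G} (hx : Good P x) (hxp : orderOf x = p)
    (hy : Good Q y) (hxy : x * y = y * x) {Y : Subgroup G} (hYp : IsPGroup p Y)
    (hYn : normalizer (Q : Set G) ≤ normalizer (Y : Set G)) (hu : u ∈ Y) (hup : orderOf u = p)
    (hun : normalizer (Q : Set G) ≤ normalizer (zpowers u : Set G))
    (hub : ∀ T : Sylow p G, u ∈ T → ¬ centralizer ({u} : Set G) ≤ normalizer (T : Set G))
    (hCu : centralizer ({u} : Set G) ≤ normalizer (Q : Set G))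
    (hQH : (Q : Subgroup G) ≤ HH u) : False := by
  have hPb : (P : Subgroup G) ≠ ⊥ := sylow_ne_bot P hx.1 hx.2.1
  have h12 : SylC p G := sylC hG hNA
  have hxN : x ∈ normalizer (Q : Set G) := hy.2.2 (mem_centralizer_singleton_iff.mpr hxy)
  have hyM : y ∈ normalizer (P : Set G) := hx.2.2 (mem_centralizer_singleton_iff.mpr hxy.symm)
  have hxp1 : x ^ p ^ 1 = 1 := by rw [pow_one, ← hxp]; exact pow_orderOf_eq_one x
  have hJ : IsPGroup p (Y ⊔ zpowers x : Subgroup G) :=
    IsPGroup.to_sup_of_normal_left' hYp (isPGroup_zpowers hxp1) (zpowers_le.mpr (hYn hxN))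
  have hJP := hx.le h12 hJ (mem_sup_right (mem_zpowers x))
  have huP : u ∈ P := hJP (mem_sup_left hu)
  have hb : Bad P u := ⟨huP, hup, hub P huP⟩
  have hxu : x * u = u * x := comm_of_normalizer hup hxp1 (hun hxN)
  by_cases hab : ∀ a ∈ P, ∀ b ∈ P, a * b = b * a
  · refine star hG hodd hNA P Q hpq hn hPb hy hyM (le_trans ?_ hCu)
    intro a ha
    exact mem_centralizer_singleton_iff.mpr (hab a ha u huP)
  · have htop : (⊤ : Subgroup P) ≠ ⊥ := by
      intro h
      have : (⟨u, huP⟩ : P) ∈ (⊤ : Subgroup P) := trivial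
      rw [h, mem_bot] at this
      exact ne_one_of_orderOf hup (congrArg Subtype.val this)
    obtain ⟨z, -, hzo, hzc⟩ := exists_central P.2 (⊤ : Subgroup P) htop
    have hzo' : orderOf (z : G) = p := (Subgroup.orderOf_coe z).trans hzo
    have hz1 : (z : G) ≠ 1 := ne_one_of_orderOf hzo'
    have hzp : (z : G) ^ p = 1 := orderOf_dvd_iff_pow_eq_one.mp hzo'.dvd
    have hzc' : ∀ a ∈ P, a * (z : G) = z * a := fun a ha =>
      congrArg Subtype.val ((mem_center_iff.1 hzc) ⟨a, ha⟩)
    obtain ⟨i, j, hij⟩ := omega_B hG hodd hNA P hab hb z.2 hz1 hzp hzc' hx.1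
      (by rw [← hxp]; exact pow_orderOf_eq_one x) hxu
    by_cases hi : p ∣ i
    · have hui : u ^ i = 1 := by
        obtain ⟨k, rfl⟩ := hi
        rw [pow_mul, ← hup, pow_orderOf_eq_one, one_pow]
      rw [hui, one_mul] at hij
      have hzx : (z : G) ∈ zpowers x := by
        have h1 : zpowers x = zpowers (z : G) := by
          apply Subgroup.eq_of_le_of_card_ge
          · rw [zpowers_le, hij]
            exact pow_mem (mem_zpowers _) j
          · rw [Nat.card_zpowers, Nat.card_zpowers, hxp, hzo']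
        rw [h1]; exact mem_zpowers _
      obtain ⟨l, hl⟩ := mem_zpowers_iff.mp hzx
      have hyz : y * (z : G) = z * y := by
        rw [← hl]
        exact ((show Commute y x from hxy.symm).zpow_right l)
      exact hy.2.1 (HH_fixz hG hodd hNA P hab hb z.2 hz1 hzc' (hQH hy.1) hyz)
    · have := bad_B hG hodd hNA P hab hb (z := (z : G)) (j := j) z.2 hzp hzc' hi
      rw [← hij] at this
      exact this.2.2 hx.2.2

include hG hodd hNA in
/-- (5.2), the case `s ≠ p`, type A for `s` -/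
lemma case_A (hpq : p ≠ q) (hn : NC p q G) {x y u : G} (hx : Good P x) (hxp : orderOf x = p)
    (hy : Good Q y) (hxy : x * y = y * x) {s : ℕ} [hs : Fact s.Prime] (hps : p ≠ s)
    (S : Sylow s G) (hab : ∀ a ∈ S, ∀ b ∈ S, a * b = b * a) (hb : Bad S u)
    (hun : normalizer (Q : Set G) ≤ normalizer (zpowers u : Set G))
    (hCu : centralizer ({u} : Set G) ≤ normalizer (Q : Set G))
    (hpH : ¬ p ∣ Nat.card (HH u)) : False := by
  have hPb : (P : Subgroup G) ≠ ⊥ := sylow_ne_bot P hx.1 hx.2.1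
  have hxN : x ∈ normalizer (Q : Set G) := hy.2.2 (mem_centralizer_singleton_iff.mpr hxy)
  have hyM : y ∈ normalizer (P : Set G) := hx.2.2 (mem_centralizer_singleton_iff.mpr hxy.symm)
  have hSu : (S : Subgroup G) ≤ centralizer ({u} : Set G) := fun a ha =>
    mem_centralizer_singleton_iff.mpr (hab a ha u hb.1)
  have hSyl : ∀ T : Sylow s G, (T : Subgroup G) ≤ centralizer ({u} : Set G) →
      IsSyl s (centralizer ({u} : Set G)) T := by
    intro T hT
    exact ⟨hT, T.2, fun U _ hU hTU => T.is_maximal' hU hTU⟩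
  have hNC : normalizer (Q : Set G) ≤ centralizer ({u} : Set G) := by
    intro n hn
    have h1 : ((n • S : Sylow s G) : Subgroup G) ≤ centralizer ({u} : Set G) := by
      intro a ha
      rw [Sylow.coe_subgroup_smul] at ha
      have h2 : n⁻¹ * a * n ∈ S := by
        have := mem_pointwise_smul_iff_inv_smul_mem.mp ha
        rw [← map_inv] at this
        have e : MulAut.conj n⁻¹ • a = n⁻¹ * a * n := by
          change n⁻¹ * a * n⁻¹⁻¹ = _
          rw [inv_inv]
        rwa [e] at this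
      have h3 : n⁻¹ * u * n ∈ zpowers u := (mem_normalizer_iff''.mp (hun hn) u).mp (mem_zpowers u)
      obtain ⟨i, hi⟩ := mem_zpowers_iff.mp h3
      have h4 : Commute (n⁻¹ * a * n) (n⁻¹ * u * n) := by
        rw [← hi]
        exact (show Commute _ _ from hab _ h2 u hb.1).zpow_right i
      rw [mem_centralizer_singleton_iff]
      have h5 : n⁻¹ * (a * u) * n = n⁻¹ * (u * a) * n := by
        calc n⁻¹ * (a * u) * n = n⁻¹ * a * n * (n⁻¹ * u * n) := by group
          _ = n⁻¹ * u * n * (n⁻¹ * a * n) := h4.eq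
          _ = _ := by group
      exact mul_left_cancel (mul_right_cancel h5)
    obtain ⟨c, hc, hcS⟩ := (hSyl _ h1).exists_conj (hSyl _ hSu)
    have h2 : (c * n) • S = S := by
      apply Sylow.ext
      rw [mul_smul, Sylow.coe_subgroup_smul, hcS]
    have h3 : c * n ∈ normalizer (S : Set G) := Sylow.smul_eq_iff_mem_normalizer.mp h2
    have h4 : c ∈ normalizer (zpowers u : Set G) := by
      rw [mem_normalizer_iff]
      have key : ∀ c ∈ centralizer ({u} : Set G), ∀ w ∈ zpowers u, c * w * c⁻¹ ∈ zpowers u := by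
        intro c hc w hw
        obtain ⟨i, rfl⟩ := mem_zpowers_iff.mp hw
        have := ((show Commute c u from mem_centralizer_singleton_iff.mp hc).zpow_right i).eq
        rw [this, mul_inv_cancel_right]
        exact hw
      intro w
      refine ⟨key c hc w, fun hw => ?_⟩
      have := key c⁻¹ (inv_mem hc) _ hw
      have e : c⁻¹ * (c * w * c⁻¹) * c⁻¹⁻¹ = w := by group
      rwa [e] at this
    have h5 := norm_A hG hodd hNA S hab hb h3 (mul_mem h4 (hun hn))
    have h6 : c * n ∈ centralizer ({u} : Set G) := by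
      rw [mem_centralizer_singleton_iff]
      exact (mem_centralizer_iff.mp h5 u hb.1).symm
    exact (mul_mem_cancel_left hc).mp h6
  have hxu := mem_centralizer_singleton_iff.mp (hNC hxN)
  obtain ⟨S', huS', hS'⟩ := exists_sylow_cent hG hodd hNA S hps.symm hb hxp hxu.symm hpH
  have hS'b : (S' : Subgroup G) ≠ ⊥ := sylow_ne_bot S' huS' (ne_one_of_orderOf hb.2.1)
  have h1 := four_three hG hodd hNA S' hS'b hps.symm P hx.1 hx.2.1 hS' hx.2.2
  refine star hG hodd hNA P Q hpq hn hPb hy hyM (le_trans ?_ hCu)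
  intro a ha
  rw [mem_centralizer_singleton_iff]
  have hcop : (Nat.card P).Coprime (Nat.card S') := IsPGroup.coprime_card_of_ne _ _ hps _ _ P.2 S'.2
  exact commute_of_coprime (A := (P : Subgroup G)) (B := (S' : Subgroup G)) hcop
    (le_normalizer.trans h1.ge) (le_normalizer.trans h1.le) a ha u huS'

include hG hodd hNA in
/-- (5.2), the case `s ≠ p`, type B for `s` -/
lemma case_B (hn : NC p q G) {x y u : G} (hx : Good P x) (hxp : orderOf x = p)
    (hy : Good Q y) (hyq : orderOf y = q) (hxy : x * y = y * x) {s : ℕ} [hs : Fact s.Prime]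
    (hps : p ≠ s)
    (S : Sylow s G) (hnab : ¬ ∀ a ∈ S, ∀ b ∈ S, a * b = b * a) (hb : Bad S u)
    (hun : normalizer (Q : Set G) ≤ normalizer (zpowers u : Set G))
    (hCu : centralizer ({u} : Set G) ≤ normalizer (Q : Set G))
    (hpH : ¬ p ∣ Nat.card (HH u)) (hQH : (Q : Subgroup G) ≤ HH u) : False := by
  have hPb : (P : Subgroup G) ≠ ⊥ := sylow_ne_bot P hx.1 hx.2.1
  have hQb : (Q : Subgroup G) ≠ ⊥ := sylow_ne_bot Q hy.1 hy.2.1
  have hxN : x ∈ normalizer (Q : Set G) := hy.2.2 (mem_centralizer_singleton_iff.mpr hxy)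
  have hyM : y ∈ normalizer (P : Set G) := hx.2.2 (mem_centralizer_singleton_iff.mpr hxy.symm)
  have h12 : SylC s G := sylC hG hNA
  have hus : u ^ s ^ 1 = 1 := by
    rw [pow_one]; exact orderOf_dvd_iff_pow_eq_one.mp hb.2.1.dvd
  -- a central element `z` of order `s`
  have htop : (⊤ : Subgroup S) ≠ ⊥ := by
    intro h
    have : (⟨u, hb.1⟩ : S) ∈ (⊤ : Subgroup S) := trivial
    rw [h, mem_bot] at this
    exact ne_one_of_orderOf hb.2.1 (congrArg Subtype.val this)
  obtain ⟨z, -, hzo, hzc⟩ := exists_central S.2 (⊤ : Subgroup S) htop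
  have hzo' : orderOf (z : G) = s := (Subgroup.orderOf_coe z).trans hzo
  have hz1 : (z : G) ≠ 1 := ne_one_of_orderOf hzo'
  have hzp : (z : G) ^ s = 1 := orderOf_dvd_iff_pow_eq_one.mp hzo'.dvd
  have hzc' : ∀ a ∈ S, a * (z : G) = z * a := fun a ha =>
    congrArg Subtype.val ((mem_center_iff.1 hzc) ⟨a, ha⟩)
  have hzg : Good S (z : G) := good_center_B hG hodd hNA S hnab z.2 hz1 hzc'
  have hzu : (z : G) ∈ centralizer ({u} : Set G) :=
    mem_centralizer_singleton_iff.mpr (hzc' u hb.1).symm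
  set R : Subgroup G := centralizer ({u} : Set G) ⊓ S with hR
  have hRs : IsPGroup s R := S.2.to_le inf_le_right
  have hRsyl := isSyl_cent hG hodd hNA S hb
  have hcn : centralizer ({u} : Set G) ≤ normalizer (zpowers u : Set G) := by
    intro c hc
    rw [mem_normalizer_iff]
    have key : ∀ c ∈ centralizer ({u} : Set G), ∀ w ∈ zpowers u, c * w * c⁻¹ ∈ zpowers u := by
      intro c hc w hw
      obtain ⟨i, rfl⟩ := mem_zpowers_iff.mp hw
      have := ((show Commute c u from mem_centralizer_singleton_iff.mp hc).zpow_right i).eq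
      rw [this, mul_inv_cancel_right]
      exact hw
    intro w
    refine ⟨key c hc w, fun hw => ?_⟩
    have := key c⁻¹ (inv_mem hc) _ hw
    have e : c⁻¹ * (c * w * c⁻¹) * c⁻¹⁻¹ = w := by group
    rwa [e] at this
  have hRN : IsSyl s (normalizer (zpowers u : Set G)) R := by
    refine ⟨inf_le_left.trans hcn, hRs, ?_⟩
    intro T hT hTs hRT
    refine hRsyl.2.2 T ?_ hTs hRT
    intro t ht
    obtain ⟨k, hk⟩ := hTs ⟨t, ht⟩
    exact mem_centralizer_singleton_iff.mpr
      (comm_of_normalizer hb.2.1 (congrArg Subtype.val hk) (hT ht))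
  have hub : zpowers u ≠ ⊥ := by
    rw [Ne, zpowers_eq_bot]; exact ne_one_of_orderOf hb.2.1
  -- factorisation of `N`
  have key : ∀ n ∈ normalizer (Q : Set G), ∃ h ∈ HH u, ∃ m ∈ normalizer (Q : Set G) ⊓
      (normalizer (S : Set G) ⊓ normalizer (zpowers u : Set G)), n = h * m := by
    intro n hn'
    obtain ⟨c, hc, hcR⟩ := h12 (zpowers u) hub (isPGroup_zpowers hus) _ _
      (hRN.conj (hun hn')) hRN
    have hcu : c ∈ centralizer ({u} : Set G) := by
      rw [mem_centralizer_singleton_iff]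
      exact (mem_centralizer_iff.mp hc u (mem_zpowers u)).symm
    have h1 : c * n ∈ normalizer (R : Set G) := by
      have h2 : MulAut.conj (c * n) • R = R := by rw [map_mul, mul_smul, hcR]
      rw [mem_normalizer_iff]
      intro w
      constructor
      · intro hw
        have h3 := Subgroup.smul_mem_pointwise_smul w (MulAut.conj (c * n)) R hw
        rw [h2] at h3
        exact h3
      · intro hw
        have h3 : MulAut.conj (c * n) • w ∈ MulAut.conj (c * n) • R := by
          rw [h2]; exact hw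
        exact Subgroup.smul_mem_pointwise_smul_iff.mp h3
    have h2 : c * n ∈ normalizer (S : Set G) := hzg.normalizer_le h12 hRs ⟨hzu, z.2⟩ h1
    have h3 : c * n ∈ normalizer (zpowers u : Set G) := mul_mem (hcn hcu) (hun hn')
    obtain ⟨h, hh, m, hm, e⟩ := HH_dec hG hodd hNA S hb.1 hb.2.1 (inv_mem hcu)
    refine ⟨h, hh, m * (c * n), ⟨?_, ?_, ?_⟩, ?_⟩
    · exact mul_mem (hCu hm.1) (mul_mem (hCu hcu) hn')
    · exact mul_mem hm.2 h2
    · exact mul_mem (hcn hm.1) h3
    · rw [← mul_assoc, ← e]; group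
  have hxp1 : x ^ p ^ 1 = 1 := by rw [pow_one, ← hxp]; exact pow_orderOf_eq_one x
  obtain ⟨c, hc, hcx⟩ := exists_conj_mem (q := p) (k := 1) (H := HH u)
    (L := normalizer (Q : Set G)) ((HH_le u).trans hCu) inf_le_left
    (hun.trans normalizer_le_HH) key hpH hxN hxp1
  have h1 := norm_B hG hodd hNA S hnab hb z.2 hz1 hzp hzc' hcx.2.1 hcx.2.2 (by
    rw [IsKp.orderOf_conj, hxp]
    intro h
    exact hps ((Nat.prime_dvd_prime_iff_eq hs.out hp.out).mp h).symm)
  -- the conjugate `z'` of `z` commuting with `x`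
  set z' : G := c⁻¹ * z * c with hz'
  have hz'x : z' * x = x * z' := by
    have : c * (z' * x) * c⁻¹ = c * (x * z') * c⁻¹ := by
      calc c * (z' * x) * c⁻¹ = z * (c * x * c⁻¹) := by rw [hz']; group
        _ = c * x * c⁻¹ * z := h1.symm
        _ = _ := by rw [hz']; group
    exact mul_left_cancel (mul_right_cancel this)
  have hz'M : z' ∈ normalizer (P : Set G) := hx.2.2 (mem_centralizer_singleton_iff.mpr hz'x)
  have hz'N : z' ∈ normalizer (Q : Set G) := mul_mem (mul_mem (inv_mem hc) (hCu hzu)) hc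
  have hfix : ∀ b ∈ Q, b * z' = z' * b → b = 1 := by
    intro b hb' hbz
    have hcb : c * b * c⁻¹ ∈ (Q : Subgroup G) := (mem_normalizer_iff.mp hc b).mp hb'
    have h2 : c * b * c⁻¹ * z = z * (c * b * c⁻¹) := by
      calc c * b * c⁻¹ * z = c * (b * z') * c⁻¹ := by rw [hz']; group
        _ = c * (z' * b) * c⁻¹ := by rw [hbz]
        _ = _ := by rw [hz']; group
    have h3 := HH_fixz hG hodd hNA S hnab hb z.2 hz1 hzc' (hQH hcb) h2
    have h4 : b = c⁻¹ * (c * b * c⁻¹) * c := by group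
    rw [h4, h3]; group
  -- `y` is a commutator
  set Q1 : Subgroup G := (Q : Subgroup G) ⊓ normalizer (P : Set G) with hQ1
  have hf : ∀ b ∈ Q1, ⁅b, z'⁆ ∈ Q1 := by
    intro b hb'
    rw [commutatorElement_def]
    have e : b * z' * b⁻¹ * z'⁻¹ = b * (z' * b⁻¹ * z'⁻¹) := by group
    refine ⟨?_, ?_⟩
    · rw [e]
      exact (Q : Subgroup G).mul_mem hb'.1
        ((mem_normalizer_iff.mp hz'N b⁻¹).mp ((Q : Subgroup G).inv_mem hb'.1))
    · have hbM : b ∈ normalizer (P : Set G) := hb'.2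
      have : b * z' * b⁻¹ * z'⁻¹ ∈ normalizer (P : Set G) :=
        mul_mem (mul_mem (mul_mem hbM hz'M) (inv_mem hbM)) (inv_mem hz'M)
      exact this
  let f : Q1 → Q1 := fun b => ⟨⁅(b : G), z'⁆, hf b b.2⟩
  have hinj : Function.Injective f := by
    rintro ⟨b, hb1⟩ ⟨b2, hb2⟩ h
    have h2 : ⁅b, z'⁆ = ⁅b2, z'⁆ := congrArg Subtype.val h
    rw [commutatorElement_def, commutatorElement_def] at h2
    have h3 : (b2⁻¹ * b) * z' = z' * (b2⁻¹ * b) := by
      have h4 : b * z' * b⁻¹ = b2 * z' * b2⁻¹ := mul_right_cancel h2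
      calc (b2⁻¹ * b) * z' = b2⁻¹ * (b * z' * b⁻¹) * b := by group
        _ = b2⁻¹ * (b2 * z' * b2⁻¹) * b := by rw [h4]
        _ = _ := by group
    have h5 := hfix (b2⁻¹ * b)
      ((Q : Subgroup G).mul_mem ((Q : Subgroup G).inv_mem hb2.1) hb1.1) h3
    apply Subtype.ext
    exact (inv_mul_eq_one.mp h5).symm
  obtain ⟨⟨b, hbQ⟩, hb'⟩ := Finite.surjective_of_injective hinj ⟨y, hy.1, hyM⟩
  have hyc : y ∈ (⁅normalizer (P : Set G), normalizer (P : Set G)⁆ : Subgroup G) := by
    have h2 : ⁅b, z'⁆ = y := congrArg Subtype.val hb'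
    rw [← h2]
    exact commutator_mem_commutator hbQ.2 hz'M
  -- `y` lies in a normal `q`-subgroup of `M`
  have hM : normalizer (P : Set G) < ⊤ := lt_top_iff_ne_top.mpr (normalizer_ne_top hG P.2 hPb)
  have hYq : IsPGroup q (Pool.Agent.H91.FT.qp q ⁅normalizer (P : Set G), normalizer (P : Set G)⁆) :=
    Pool.Agent.H91.FT.isPGroup_qp hq.out (nil_comm (hNA _ hM))
  have hyY := Pool.Agent.H91.FT.mem_qp (q := q) (k := 1) hyc
    (by rw [pow_one, ← hyq]; exact pow_orderOf_eq_one y)
  have hYle := Pool.Agent.H91.FT.qp_le q ⁅normalizer (P : Set G), normalizer (P : Set G)⁆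
  have hYn : normalizer (P : Set G) ≤ normalizer
      (Pool.Agent.H91.FT.qp q ⁅normalizer (P : Set G), normalizer (P : Set G)⁆ : Set G) := by
    intro g hg
    exact Pool.Agent.H91.FT.mem_norm fun w hw =>
      Pool.Agent.H91.FT.qp_conj (fun v hv => IsKp.conj_mem_comm hg hv) hw
  exact (four_two hG hodd hNA P hPb hYq (hYle.trans (comm_le_self _)) hYn
    (hn.not_le hG hNA P hPb hQb)).2 y hyY hy.2.1 Q hy.1 hy.2.2

include hG hodd hNA in
/-- (5.2), first part: all primes dividing the order of `[N,N]` (indeed of `F(N)`) are in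
`σ(N)`, `N = N_G(Q)` -/
theorem five_two_sigma (hpq : p ≠ q) (hn : NC p q G) {x y : G} (hx : Good P x)
    (hxp : orderOf x = p) (hy : Good Q y) (hyq : orderOf y = q) (hxy : x * y = y * x)
    {s : ℕ} [hs : Fact s.Prime] {Y : Subgroup G} (hYs : IsPGroup s Y)
    (hYN : Y ≤ normalizer (Q : Set G)) (hYn : normalizer (Q : Set G) ≤ normalizer (Y : Set G))
    (hYb : Y ≠ ⊥) : ∃ T : Sylow s G, normalizer (Q : Set G) ≤ normalizer (T : Set G) := by
  by_contra hsig
  push Not at hsig
  have hPb : (P : Subgroup G) ≠ ⊥ := sylow_ne_bot P hx.1 hx.2.1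
  have hQb : (Q : Subgroup G) ≠ ⊥ := sylow_ne_bot Q hy.1 hy.2.1
  obtain ⟨hcyc, hbad⟩ := four_two hG hodd hNA Q hQb hYs hYN hYn hsig
  -- an element of order `s`
  have htop : (⊤ : Subgroup Y) ≠ ⊥ := by
    intro h
    apply hYb
    rw [eq_bot_iff]
    intro a ha
    have : (⟨a, ha⟩ : Y) ∈ (⊤ : Subgroup Y) := trivial
    rw [h, mem_bot] at this
    exact mem_bot.mpr (congrArg Subtype.val this)
  obtain ⟨u', -, huo', -⟩ := exists_central hYs (⊤ : Subgroup Y) htop
  obtain ⟨u, huY⟩ := u'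
  have huo : orderOf u = s := (Subgroup.orderOf_coe (⟨u, huY⟩ : Y)).trans huo'
  have hu1 : u ≠ 1 := ne_one_of_orderOf huo
  have hus : u ^ s = 1 := orderOf_dvd_iff_pow_eq_one.mp huo.dvd
  obtain ⟨S, hS⟩ := (isPGroup_zpowers (k := 1) (by rwa [pow_one])).exists_le_sylow
  have huS : u ∈ S := hS (mem_zpowers u)
  have hb : Bad S u := ⟨huS, huo, hbad u huY hu1 S huS⟩
  have hun : normalizer (Q : Set G) ≤ normalizer (zpowers u : Set G) := by
    intro n hn'
    refine Pool.Agent.H91.FT.mem_norm fun w hw => ?_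
    obtain ⟨i, rfl⟩ := mem_zpowers_iff.mp hw
    have h1 : n * u * n⁻¹ ∈ Y := (mem_normalizer_iff.mp (hYn hn') u).mp huY
    have h2 : n * u * n⁻¹ ∈ zpowers u :=
      cyc_mem hs.out.pos hcyc huY h1 huo (by rw [conj_pow, hus]; group)
    rw [← conj_zpow]
    exact zpow_mem h2 i
  have hqs : q ≠ s := by
    rintro rfl
    exact hsig Q le_rfl
  have huQ : ∀ a ∈ Q, a * u = u * a := by
    intro a ha
    have hcop : (Nat.card Q).Coprime (Nat.card Y) := IsPGroup.coprime_card_of_ne _ _ hqs _ _ Q.2 hYs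
    exact commute_of_coprime (A := (Q : Subgroup G)) (B := Y) hcop
      (le_normalizer.trans hYn) hYN a ha u huY
  obtain ⟨-, hCu, hQH, hH⟩ := four_five hG hodd hNA Q hQb hqs S huS huo huQ hsig
  have hpH : ¬ p ∣ Nat.card (HH u) := by
    intro h
    obtain ⟨T, hT⟩ := hH p hp.out h
    exact hn.symm.not_le hG hNA Q hQb hPb T hT
  by_cases hps : p = s
  · subst hps
    exact case_same hG hodd hNA P Q hpq hn hx hxp hy hxy hYs hYn huY huo hun
      (fun T hT => hbad u huY hu1 T hT) hCu hQH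
  · by_cases hab : ∀ a ∈ S, ∀ b ∈ S, a * b = b * a
    · exact case_A hG hodd hNA P Q hpq hn hx hxp hy hxy hps S hab hb hun hCu hpH
    · exact case_B hG hodd hNA P Q hn hx hxp hy hyq hxy hps S hab hb hun hCu hpH hQH

include hG hodd hNA in
/-- (5.2), first part, for elements of the derived subgroup -/
theorem five_two_comm (hpq : p ≠ q) (hn : NC p q G) {x y : G} (hx : Good P x)
    (hxp : orderOf x = p) (hy : Good Q y) (hyq : orderOf y = q) (hxy : x * y = y * x)
    {s k : ℕ} [hs : Fact s.Prime] {w : G}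
    (hw : w ∈ (⁅normalizer (Q : Set G), normalizer (Q : Set G)⁆ : Subgroup G))
    (hws : w ^ s ^ k = 1) (hw1 : w ≠ 1) :
    ∃ T : Sylow s G, normalizer (Q : Set G) ≤ normalizer (T : Set G) := by
  have hQb : (Q : Subgroup G) ≠ ⊥ := sylow_ne_bot Q hy.1 hy.2.1
  have hN : normalizer (Q : Set G) < ⊤ := lt_top_iff_ne_top.mpr (normalizer_ne_top hG Q.2 hQb)
  refine five_two_sigma hG hodd hNA P Q hpq hn hx hxp hy hyq hxy
    (Y := Pool.Agent.H91.FT.qp s ⁅normalizer (Q : Set G), normalizer (Q : Set G)⁆)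
    (Pool.Agent.H91.FT.isPGroup_qp hs.out (nil_comm (hNA _ hN)))
    ((Pool.Agent.H91.FT.qp_le _ _).trans (comm_le_self _)) ?_ ?_
  · intro g hg
    exact Pool.Agent.H91.FT.mem_norm fun w hw =>
      Pool.Agent.H91.FT.qp_conj (fun v hv => IsKp.conj_mem_comm hg hv) hw
  · intro h
    have := Pool.Agent.H91.FT.mem_qp hw hws
    rw [h, mem_bot] at this
    exact hw1 this

include hG hNA in
/-- (5.2): `N = [N,N] (M ⊓ N)`, `M = N_G(P)`, `N = N_G(Q)` -/
theorem five_two_fac {x y : G} (hx : Good P x) (hy : Good Q y) (hxy : x * y = y * x) :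
    ∀ n ∈ normalizer (Q : Set G),
      ∃ k ∈ (⁅normalizer (Q : Set G), normalizer (Q : Set G)⁆ : Subgroup G),
        ∃ z ∈ normalizer (P : Set G) ⊓ normalizer (Q : Set G), n = k * z := by
  have hQb : (Q : Subgroup G) ≠ ⊥ := sylow_ne_bot Q hy.1 hy.2.1
  have hN : normalizer (Q : Set G) < ⊤ := lt_top_iff_ne_top.mpr (normalizer_ne_top hG Q.2 hQb)
  have hxN : x ∈ normalizer (Q : Set G) := hy.2.2 (mem_centralizer_singleton_iff.mpr hxy)
  obtain ⟨K, hK⟩ := exists_isKp (p := p) (hNA _ hN)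
  intro n hn
  obtain ⟨k, hk, z, hz, e⟩ := fac hG hNA P hN hx hxN hK n hn
  exact ⟨k, hK.le_comm hk, z, ⟨hz.2, hz.1⟩, e⟩

include hG hodd hNA in
/-- (5.2): `M ⊓ N` is abelian, `M = N_G(P)`, `N = N_G(Q)` -/
theorem five_two_abelian (hpq : p ≠ q) (hn : NC p q G) {x y : G} (hx : Good P x)
    (hxp : orderOf x = p) (hy : Good Q y) (hyq : orderOf y = q) (hxy : x * y = y * x)
    {a b : G} (ha : a ∈ normalizer (P : Set G) ⊓ normalizer (Q : Set G))
    (hb : b ∈ normalizer (P : Set G) ⊓ normalizer (Q : Set G)) : a * b = b * a := by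
  rw [← commutatorElement_eq_one_iff_mul_comm]
  by_contra hc
  have hcM : ⁅a, b⁆ ∈ (⁅normalizer (P : Set G), normalizer (P : Set G)⁆ : Subgroup G) :=
    commutator_mem_commutator ha.1 hb.1
  have hcN : ⁅a, b⁆ ∈ (⁅normalizer (Q : Set G), normalizer (Q : Set G)⁆ : Subgroup G) :=
    commutator_mem_commutator ha.2 hb.2
  set c := ⁅a, b⁆
  have h1 : orderOf c ≠ 1 := fun h => hc (orderOf_eq_one_iff.mp h)
  obtain ⟨s, hs, hsc⟩ := Nat.exists_prime_and_dvd h1
  have hsf : Fact s.Prime := ⟨hs⟩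
  obtain ⟨m, hm⟩ := hsc
  have hm0 : orderOf (c ^ m) = s := by
    rw [orderOf_pow_of_dvd]
    · rw [hm]
      have : m ≠ 0 := by
        rintro rfl
        rw [mul_zero] at hm
        exact (orderOf_pos c).ne' hm
      exact Nat.mul_div_cancel _ (Nat.pos_of_ne_zero this)
    · rintro rfl
      rw [mul_zero] at hm
      exact (orderOf_pos c).ne' hm
    · exact Dvd.intro_left s hm.symm
  have hw1 : c ^ m ≠ 1 := ne_one_of_orderOf hm0
  have hws : (c ^ m) ^ s ^ 1 = 1 := by
    rw [pow_one]; exact orderOf_dvd_iff_pow_eq_one.mp hm0.dvd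
  obtain ⟨T, hT⟩ := five_two_comm hG hodd hNA P Q hpq hn hx hxp hy hyq hxy (pow_mem hcN m) hws hw1
  obtain ⟨T', hT'⟩ := five_two_comm hG hodd hNA Q P hpq.symm hn.symm hy hyq hx hxp hxy.symm
    (pow_mem hcM m) hws hw1
  have hPb : (P : Subgroup G) ≠ ⊥ := sylow_ne_bot P hx.1 hx.2.1
  have hQb : (Q : Subgroup G) ≠ ⊥ := sylow_ne_bot Q hy.1 hy.2.1
  -- the Sylow `s`-subgroups are nontrivial
  obtain ⟨T0, hT0⟩ := (isPGroup_zpowers hws).exists_le_sylow
  have hT0b : (T0 : Subgroup G) ≠ ⊥ := sylow_ne_bot T0 (hT0 (mem_zpowers _)) hw1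
  have hTb : (T : Subgroup G) ≠ ⊥ := sylow_ne_bot' hT0b
  have hTb' : (T' : Subgroup G) ≠ ⊥ := sylow_ne_bot' hT0b
  have e1 : normalizer (T : Set G) = normalizer (Q : Set G) :=
    eq_normalizer_of_le (sylC hG hNA) hG hNA Q hQb
      (lt_top_iff_ne_top.mpr (normalizer_ne_top hG T.2 hTb)) hT
  have e2 : normalizer (T' : Set G) = normalizer (P : Set G) :=
    eq_normalizer_of_le (sylC hG hNA) hG hNA P hPb
      (lt_top_iff_ne_top.mpr (normalizer_ne_top hG T'.2 hTb')) hT'
  obtain ⟨g, rfl⟩ := MulAction.exists_smul_eq G T T'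
  apply hn P (g • Q)
  rw [← e2]
  ext w
  have h3 : ∀ {r : ℕ} (U : Sylow r G), w ∈ normalizer ((g • U : Sylow r G) : Set G) ↔
      g⁻¹ * w * g ∈ normalizer (U : Set G) := by
    intro r U
    rw [← Sylow.smul_eq_iff_mem_normalizer, ← Sylow.smul_eq_iff_mem_normalizer, mul_smul,
      mul_smul, inv_smul_eq_iff]
  rw [h3, h3, e1]

end simple

end H23.FT
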